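import Mathlib

set_option autoImplicit false

namespace Pool.Agent.H.MP_e74e95_nt

open Finset

def c (A : Finset ℕ) (i n : ℕ) : ℕ :=
  #{p : n.Partition | (∀ a ∈ p.parts, a ∈ A) ∧ p.parts.card = i}

def S (A : Finset ℕ) (k n : ℕ) : ℤ := ∑ i ∈ range (n + 1), (-1) ^ i * (i : ℤ) ^ k * c A i n

def w (i : ℕ) : ℤ := (-1) ^ i * (i : ℤ) ^ 2

lemma dec (s : Multiset ℕ) (h : ∀ a ∈ s, a ∈ ({1, 2, 6} : Finset ℕ)) :
    s = Multiset.replicate (s.count 1) 1 + Multiset.replicate (s.count 2) 2 +
      Multiset.replicate (s.count 6) 6 := by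
  ext a
  simp only [Multiset.count_add, Multiset.count_replicate]
  by_cases ha : a ∈ s
  · have := h a ha
    simp only [mem_insert, mem_singleton] at this
    rcases this with rfl | rfl | rfl <;> simp
  · rw [Multiset.count_eq_zero_of_notMem ha]
    split_ifs <;> subst_vars <;> simp_all

lemma facts (n : ℕ) (p : n.Partition) (h : ∀ a ∈ p.parts, a ∈ ({1, 2, 6} : Finset ℕ)) :
    p.parts.count 1 + 2 * p.parts.count 2 + 6 * p.parts.count 6 = n ∧
    p.parts.card = p.parts.count 1 + p.parts.count 2 + p.parts.count 6 := by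
  have h1 := congrArg Multiset.sum (dec _ h)
  have h2 := congrArg Multiset.card (dec _ h)
  simp only [Multiset.sum_add, Multiset.sum_replicate, smul_eq_mul, p.parts_sum, Multiset.card_add,
    Multiset.card_replicate] at h1 h2
  omega

lemma S_eq (n : ℕ) : S {1, 2, 6} 2 n =
    ∑ d ∈ range (n / 6 + 1), ∑ b ∈ range ((n - 6 * d) / 2 + 1), w (n - 5 * d - b) := by
  have h1 : S {1, 2, 6} 2 n =
      ∑ p ∈ ({p | ∀ a ∈ p.parts, a ∈ ({1, 2, 6} : Finset ℕ)} : Finset n.Partition),
        w p.parts.card := by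
    rw [← sum_fiberwise_of_maps_to (t := range (n + 1)) (g := fun p : n.Partition => p.parts.card)]
    · refine sum_congr rfl fun i _ => ?_
      rw [sum_congr rfl (g := fun _ => w i) fun p hp => by rw [(mem_filter.mp hp).2], sum_const,
        filter_filter, c, nsmul_eq_mul, mul_comm, w]
    · intro p hp
      have := facts n p (mem_filter.mp hp).2
      exact mem_range.mpr (by omega)
  rw [h1, sum_sigma']
  refine sum_nbij (fun p => ⟨p.parts.count 6, p.parts.count 2⟩) (fun p hp => ?_)
    (fun p hp q hq h => ?_) ?_ fun p hp => ?_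
  · have := facts n p (mem_filter.mp hp).2
    simp only [mem_sigma, mem_range]
    omega
  · have h2 := facts n p (mem_filter.mp hp).2
    have h3 := facts n q (mem_filter.mp hq).2
    simp only [Sigma.mk.injEq, heq_eq_eq] at h
    ext1
    rw [dec _ (mem_filter.mp hp).2, dec _ (mem_filter.mp hq).2, h.1, h.2,
      show p.parts.count 1 = q.parts.count 1 by omega]
  · rintro ⟨d, b⟩ h
    simp only [mem_coe, mem_sigma, mem_range] at h
    refine ⟨⟨Multiset.replicate (n - 6 * d - 2 * b) 1 + Multiset.replicate b 2 +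
      Multiset.replicate d 6, ?_, ?_⟩, ?_, ?_⟩
    · simp only [Multiset.mem_add, Multiset.mem_replicate]
      omega
    · simp only [Multiset.sum_add, Multiset.sum_replicate, smul_eq_mul]
      omega
    · simp only [coe_filter, mem_univ, true_and, Set.mem_ofPred_eq, Multiset.mem_add,
        Multiset.mem_replicate, mem_insert, mem_singleton]
      omega
    · simp [Multiset.count_replicate]
  · have := facts n p (mem_filter.mp hp).2
    congr 1
    simp only
    omega

lemma inner (l B : ℕ) : 2 * ∑ b ∈ range (B + 1), w (l + B - b) =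
    (-1) ^ (l + B) * (l + B) * (l + B + 1) + (-1) ^ l * l * (l - 1) := by
  induction B with
  | zero =>
    simp [w]
    ring
  | succ B ih =>
    rw [sum_range_succ', mul_add]
    simp only [← add_assoc, Nat.add_sub_add_right, ih, Nat.sub_zero]
    rw [w]
    push_cast
    ring

lemma pairs (q j : ℕ) (hq : 30 ≤ q) (hj : j ≤ q + 1) : ∑ d ∈ range (2 * j),
    ∑ b ∈ range ((12 * q + 6 - 6 * d) / 2 + 1), w (12 * q + 6 - 5 * d - b) ≤ -j := by
  induction j with
  | zero => simp
  | succ j ih =>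
    obtain ⟨e, rfl⟩ : ∃ e, q = j + e := ⟨q - j, by omega⟩
    have h1 := inner (2 * (j + 3 * e + 1) + 1) (6 * e + 3)
    have h2 := inner (2 * (j + 3 * e) + 1) (6 * e)
    have h3 := ih (by omega)
    rw [show 2 * (j + 3 * e + 1) + 1 + (6 * e + 3) = 2 * (j + 6 * e + 3) by ring,
      (even_two_mul _).neg_one_pow, (odd_two_mul_add_one _).neg_one_pow] at h1
    rw [show 2 * (j + 3 * e) + 1 + 6 * e = 2 * (j + 6 * e) + 1 by ring,
      (odd_two_mul_add_one _).neg_one_pow, (odd_two_mul_add_one _).neg_one_pow] at h2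
    rw [show 2 * (j + 1) = 2 * j + 1 + 1 by ring, sum_range_succ, sum_range_succ,
      show (12 * (j + e) + 6 - 6 * (2 * j)) / 2 = 6 * e + 3 by omega,
      show (12 * (j + e) + 6 - 6 * (2 * j + 1)) / 2 = 6 * e by omega,
      show 12 * (j + e) + 6 - 5 * (2 * j) = 2 * (j + 6 * e + 3) by omega,
      show 12 * (j + e) + 6 - 5 * (2 * j + 1) = 2 * (j + 6 * e) + 1 by omega]
    push_cast at h1 h2 ⊢
    have h4 : (30 : ℤ) ≤ j + e := by exact_mod_cast hq
    have h5 : (0 : ℤ) ≤ j := by positivity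
    have h6 : (0 : ℤ) ≤ e := by positivity
    nlinarith

theorem main (N : ℕ) : ∃ n, N ≤ n ∧ (-1) ^ n * S {1, 2, 6} 2 n < 0 := by
  refine ⟨12 * (N + 30) + 6, by omega, ?_⟩
  have h := pairs (N + 30) (N + 30 + 1) (by omega) le_rfl
  rw [S_eq, show (12 * (N + 30) + 6) / 6 + 1 = 2 * (N + 30 + 1) by omega,
    Even.neg_one_pow ⟨6 * (N + 30) + 3, by ring⟩, one_mul]
  push_cast at h
  omega

end Pool.Agent.H.MP_e74e95_nt
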